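import Mathlib

/-!
# A graph with minimum degree 9 and chromatic number 9 without an immersion of `K_10`

The graph is a complete graph on nine vertices, each of which is joined by a bridge to its own copy
of the complete multipartite graph `K_{3,3,3,3}`.
-/

set_option autoImplicit false

namespace Pool.Agent.Results.MP_5ee7f3_co.BridgedClique

/-- `G` contains an immersion of the complete graph on `d` vertices: there are `d` distinct corners
`f i` and paths `P i j` (for `i < j`) between them that are pairwise edge-disjoint. -/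
def HasImmersion {V : Type*} (G : SimpleGraph V) (d : ℕ) : Prop :=
  ∃ (f : Fin d ↪ V) (P : ∀ i j : Fin d, G.Walk (f i) (f j)),
    (∀ i j, i < j → (P i j).IsPath) ∧
    ∀ i j k l, i < j → k < l → (i, j) ≠ (k, l) → ∀ e, e ∈ (P i j).edges → e ∉ (P k l).edges

theorem symmetrize {V : Type*} {G : SimpleGraph V} {d : ℕ} (h : HasImmersion G d) :
    ∃ (f : Fin d ↪ V) (W : ∀ i j : Fin d, G.Walk (f i) (f j)),
      (∀ a b, a ≠ b → (W a b).IsPath) ∧
      ∀ a b c e, a ≠ b → c ≠ e → ∀ x, x ∈ (W a b).edges → x ∈ (W c e).edges →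
        (a = c ∧ b = e) ∨ (a = e ∧ b = c) := by
  obtain ⟨f, P, hP, hdis⟩ := h
  refine ⟨f, fun a b => if a < b then P a b else (P b a).reverse, ?_, ?_⟩
  · intro a b hab
    by_cases h : a < b
    · simp only [if_pos h]
      exact hP a b h
    · simp only [if_neg h]
      rw [SimpleGraph.Walk.isPath_reverse_iff]
      exact hP b a (lt_of_le_of_ne (not_lt.1 h) (Ne.symm hab))
  · intro a b c e hab hce x h1 h2
    have key : ∀ i j k l, i < j → k < l → x ∈ (P i j).edges → x ∈ (P k l).edges →
        i = k ∧ j = l := by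
      intro i j k l hij hkl h1 h2
      by_contra hne
      refine hdis i j k l hij hkl (fun h => hne ?_) x h1 h2
      exact ⟨congrArg Prod.fst h, congrArg Prod.snd h⟩
    by_cases h : a < b <;> by_cases h' : c < e
    · simp only [if_pos h] at h1
      simp only [if_pos h'] at h2
      exact Or.inl (key a b c e h h' h1 h2)
    · simp only [if_pos h] at h1
      simp only [if_neg h', SimpleGraph.Walk.edges_reverse, List.mem_reverse] at h2
      have := key a b e c h (lt_of_le_of_ne (not_lt.1 h') (Ne.symm hce)) h1 h2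
      exact Or.inr this
    · simp only [if_neg h, SimpleGraph.Walk.edges_reverse, List.mem_reverse] at h1
      simp only [if_pos h'] at h2
      have := key b a c e (lt_of_le_of_ne (not_lt.1 h) (Ne.symm hab)) h' h1 h2
      exact Or.inr ⟨this.2, this.1⟩
    · simp only [if_neg h, SimpleGraph.Walk.edges_reverse, List.mem_reverse] at h1
      simp only [if_neg h', SimpleGraph.Walk.edges_reverse, List.mem_reverse] at h2
      have := key b a e c (lt_of_le_of_ne (not_lt.1 h) (Ne.symm hab))
        (lt_of_le_of_ne (not_lt.1 h') (Ne.symm hce)) h1 h2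
      exact Or.inl ⟨this.2, this.1⟩

theorem exists_edge_of_mem_support {V : Type*} {G : SimpleGraph V} {u v w : V} (p : G.Walk u v)
    (hw : w ∈ p.support) (hne : w ≠ u) : ∃ x, s(w, x) ∈ p.edges := by
  induction p with
  | nil =>
    rw [SimpleGraph.Walk.support_nil, List.mem_singleton] at hw
    exact absurd hw hne
  | @cons u y v h p ih =>
    rw [SimpleGraph.Walk.support_cons, List.mem_cons] at hw
    rcases hw with hw | hw
    · exact absurd hw hne
    by_cases hwy : w = y
    · refine ⟨u, ?_⟩
      rw [SimpleGraph.Walk.edges_cons, hwy, Sym2.eq_swap]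
      exact List.mem_cons_self
    · obtain ⟨x, hx⟩ := ih hw hwy
      refine ⟨x, ?_⟩
      rw [SimpleGraph.Walk.edges_cons]
      exact List.mem_cons_of_mem _ hx

/-- The vertices: `(i, none)` is a vertex of the complete graph, and `(i, some (t, r))` is the
`r`-th vertex of the `t`-th class of the `i`-th copy of `K_{3,3,3,3}`. -/
abbrev V := Fin 9 × Option (Fin 4 × Fin 3)

/-- The adjacency relation, as a Boolean. -/
def adjB : V → V → Bool
  | (i, none), (j, none) => decide (i ≠ j)
  | (i, none), (j, some h) => decide (i = j) && decide (h = (0, 0))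
  | (i, some h), (j, none) => decide (i = j) && decide (h = (0, 0))
  | (i, some h), (j, some h') => decide (i = j) && decide (h.1 ≠ h'.1)

theorem adjB_symm (u v : V) (h : adjB u v = true) : adjB v u = true := by
  rcases u with ⟨i, _ | h1⟩ <;> rcases v with ⟨j, _ | h2⟩ <;>
    simp only [adjB, Bool.and_eq_true, decide_eq_true_eq] at h ⊢
  · exact h.symm
  · exact ⟨h.1.symm, h.2⟩
  · exact ⟨h.1.symm, h.2⟩
  · exact ⟨h.1.symm, Ne.symm h.2⟩

/-- The graph. -/
def Gr : SimpleGraph V where
  Adj u v := adjB u v = true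
  symm := ⟨adjB_symm⟩
  loopless := ⟨by
    rintro ⟨i, _ | h1⟩ h <;> simp [adjB] at h⟩

instance : DecidableRel Gr.Adj := fun u v => inferInstanceAs (Decidable (adjB u v = true))

theorem adj_some (i j : Fin 9) (h h' : Fin 4 × Fin 3) :
    Gr.Adj (i, some h) (j, some h') ↔ i = j ∧ h.1 ≠ h'.1 := by
  show adjB _ _ = true ↔ _
  simp [adjB]

theorem adj_some_none (i j : Fin 9) (h : Fin 4 × Fin 3) :
    Gr.Adj (i, some h) (j, none) ↔ i = j ∧ h = (0, 0) := by
  show adjB _ _ = true ↔ _
  simp [adjB]

theorem le_degree : ∀ v : V, 9 ≤ (Finset.univ.filter (fun w => adjB v w = true)).card := by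
  decide +kernel

theorem degree_eq : (Finset.univ.filter (fun w => adjB (0, none) w = true)).card = 9 := by
  decide +kernel

theorem minDegree_eq : Gr.minDegree = 9 := by
  have hdeg : ∀ v : V, Gr.degree v = (Finset.univ.filter (fun w => adjB v w = true)).card := by
    intro v
    rw [← SimpleGraph.card_neighborFinset_eq_degree]
    congr 1
    ext w
    simp only [SimpleGraph.mem_neighborFinset, Finset.mem_filter, Finset.mem_univ, true_and]
    exact Iff.rfl
  apply le_antisymm
  · refine (Gr.minDegree_le_degree (0, none)).trans ?_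
    rw [hdeg, degree_eq]
  · apply Gr.le_minDegree_of_forall_le_degree
    intro v
    rw [hdeg]
    exact le_degree v

/-- The colouring. -/
def col : V → Fin 9
  | (i, none) => i
  | (i, some h) => i + 1 + ⟨h.1, by have := h.1.2; omega⟩

theorem col_valid : ∀ i : Fin 9, ∀ t t' : Fin 4, i ≠ i + 1 + ⟨(0 : ℕ), by omega⟩ ∧
    (t ≠ t' → i + 1 + ⟨(t : ℕ), by omega⟩ ≠ i + 1 + ⟨(t' : ℕ), by omega⟩) := by
  decide +kernel

theorem chromaticNumber_eq : Gr.chromaticNumber = 9 := by
  apply le_antisymm
  · have hc : Gr.Colorable 9 := by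
      refine ⟨SimpleGraph.Coloring.mk col ?_⟩
      rintro ⟨i, _ | h1⟩ ⟨j, _ | h2⟩ h
      · have h' : adjB _ _ = true := h
        simp only [adjB, decide_eq_true_eq] at h'
        exact h'
      · have h' := (adj_some_none j i h2).1 h.symm
        obtain ⟨rfl, rfl⟩ := h'
        exact (col_valid _ 0 0).1
      · have h' := (adj_some_none i j h1).1 h
        obtain ⟨rfl, rfl⟩ := h'
        exact (col_valid _ 0 0).1.symm
      · have h' := (adj_some i j h1 h2).1 h
        obtain ⟨rfl, hne⟩ := h'
        exact (col_valid _ _ _).2 hne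
    exact_mod_cast hc.chromaticNumber_le
  · let f : (⊤ : SimpleGraph (Fin 9)) →g Gr :=
      { toFun := fun i => (i, none)
        map_rel' := by
          intro i j hij
          show adjB _ _ = true
          simpa [adjB] using hij }
    have h := SimpleGraph.chromaticNumber_mono_of_hom f
    rw [SimpleGraph.chromaticNumber_top, Fintype.card_fin] at h
    exact_mod_cast h

/-- The vertex set of the `i`-th copy of `K_{3,3,3,3}`. -/
def S (i : Fin 9) : Set V := {v | ∃ h, v = (i, some h)}

theorem boundary {i : Fin 9} {u v : V} (huv : Gr.Adj u v) (hu : u ∈ S i) (hv : v ∉ S i) :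
    s(u, v) = s((i, some (0, 0)), (i, none)) := by
  obtain ⟨h, rfl⟩ := hu
  rcases v with ⟨j, _ | h'⟩
  · obtain ⟨rfl, rfl⟩ := (adj_some_none _ _ _).1 huv
    rfl
  · obtain ⟨rfl, -⟩ := (adj_some _ _ _ _).1 huv
    exact absurd ⟨h', rfl⟩ hv

theorem cross {i : Fin 9} {u v : V} (p : Gr.Walk u v) (hu : u ∈ S i) (hv : v ∉ S i) :
    s((i, some (0, 0)), (i, none)) ∈ p.edges := by
  obtain ⟨d, hd, h1, h2⟩ := p.exists_boundary_dart (S i) hu hv
  rw [← boundary d.adj h1 h2]
  exact List.mem_map_of_mem hd

theorem cross' {i : Fin 9} {u v : V} (p : Gr.Walk u v) (hu : u ∉ S i) (hv : v ∈ S i) :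
    s((i, some (0, 0)), (i, none)) ∈ p.edges := by
  have := cross p.reverse hv hu
  rwa [SimpleGraph.Walk.edges_reverse, List.mem_reverse] at this

theorem stay {i : Fin 9} {u v : V} (p : Gr.Walk u v) (hp : p.IsPath) (hu : u ∈ S i) (hv : v ∈ S i) :
    ∀ w ∈ p.support, w ∈ S i := by
  intro w hw
  by_contra hwS
  have h1 := cross (p.takeUntil w hw) hu hwS
  have h2 := cross' (p.dropUntil w hw) hwS hv
  have h3 : ((p.takeUntil w hw).append (p.dropUntil w hw)).edges.Nodup := by
    rw [SimpleGraph.Walk.take_spec]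
    exact hp.isTrail.edges_nodup
  rw [SimpleGraph.Walk.edges_append, List.nodup_append] at h3
  exact h3.2.2 _ h1 _ h2 rfl

/-- A path between non-adjacent vertices `u`, `v` inside `{u, v, P, Q}`. -/
theorem short_path {V : Type*} {G : SimpleGraph V} {u v P Q : V} (p : G.Walk u v) (hp : p.IsPath)
    (huv : u ≠ v) (hna : ¬ G.Adj u v)
    (hs : ∀ w ∈ p.support, w = u ∨ w = v ∨ w = P ∨ w = Q) :
    s(P, Q) ∈ p.edges ∨ ∃ y, (y = P ∨ y = Q) ∧ s(u, y) ∈ p.edges ∧ s(v, y) ∈ p.edges := by
  cases p with
  | nil => exact absurd rfl huv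
  | @cons _ y _ h1 p1 =>
    have hy : y = P ∨ y = Q := by
      have := hs y (by
        rw [SimpleGraph.Walk.support_cons]
        exact List.mem_cons_of_mem _ p1.start_mem_support)
      rcases this with h | h | h
      · exact absurd h.symm h1.ne
      · exact absurd (h ▸ h1) hna
      · exact h
    cases p1 with
    | nil => exact absurd h1 hna
    | @cons _ z _ h2 p2 =>
      have hz := hs z (by
        rw [SimpleGraph.Walk.support_cons, SimpleGraph.Walk.support_cons]
        exact List.mem_cons_of_mem _ (List.mem_cons_of_mem _ p2.start_mem_support))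
      have hzu : z ≠ u := by
        intro h
        rw [SimpleGraph.Walk.cons_isPath_iff] at hp
        apply hp.2
        rw [SimpleGraph.Walk.support_cons, ← h]
        exact List.mem_cons_of_mem _ p2.start_mem_support
      rcases hz with hz | hz | hz
      · exact absurd hz hzu
      · right
        refine ⟨y, hy, ?_, ?_⟩
        · rw [SimpleGraph.Walk.edges_cons]
          exact List.mem_cons_self
        · have e : s(v, y) = s(y, z) := by rw [hz, Sym2.eq_swap]
          rw [SimpleGraph.Walk.edges_cons, SimpleGraph.Walk.edges_cons, e]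
          exact List.mem_cons_of_mem _ List.mem_cons_self
      · left
        have hmem : s(y, z) ∈ (SimpleGraph.Walk.cons h1 (SimpleGraph.Walk.cons h2 p2)).edges := by
          rw [SimpleGraph.Walk.edges_cons, SimpleGraph.Walk.edges_cons]
          exact List.mem_cons_of_mem _ List.mem_cons_self
        have hyz : y ≠ z := h2.ne
        rcases hy with rfl | rfl <;> rcases hz with rfl | rfl
        · exact absurd rfl hyz
        · exact hmem
        · rw [Sym2.eq_swap]; exact hmem
        · exact absurd rfl hyz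

theorem card_nbr : ∀ h : Fin 4 × Fin 3,
    (Finset.univ.filter (fun h' : Fin 4 × Fin 3 => h.1 ≠ h'.1)).card = 9 := by
  decide

theorem two_classes : ∀ a b : Fin 4, ∃ t t' : Fin 4, t ≠ t' ∧ a ≠ t ∧ b ≠ t ∧ a ≠ t' ∧ b ≠ t' := by
  decide

theorem third : ∀ a b : Fin 10, ∃ c : Fin 10, c ≠ a ∧ c ≠ b := by
  decide

theorem no_immersion : ¬ HasImmersion Gr 10 := by
  classical
  intro hI
  obtain ⟨f, W, hpath, hdis⟩ := symmetrize hI
  -- all corners lie in one copy
  obtain ⟨a0, i, ha0⟩ : ∃ a i, f a ∈ S i := by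
    by_contra hcon
    push Not at hcon
    obtain ⟨a, b, hab, heq⟩ := Fintype.exists_ne_map_eq_of_card_lt (fun a => (f a).1) (by simp)
    have hnone : ∀ a, (f a).2 = none := by
      intro a
      by_contra h
      obtain ⟨h', hh'⟩ := Option.ne_none_iff_exists'.1 h
      exact hcon a (f a).1 ⟨h', Prod.ext rfl hh'⟩
    exact hab (f.injective (Prod.ext heq ((hnone a).trans (hnone b).symm)))
  have hall : ∀ a, f a ∈ S i := by
    intro a1
    by_contra ha1
    have h01 : a0 ≠ a1 := fun h => ha1 (h ▸ ha0)
    obtain ⟨a2, h20, h21⟩ := third a0 a1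
    have e1 := cross (W a0 a1) ha0 ha1
    by_cases ha2 : f a2 ∈ S i
    · have e2 := cross (W a2 a1) ha2 ha1
      rcases hdis a0 a1 a2 a1 h01 h21 _ e1 e2 with h | h
      · exact h20 h.1.symm
      · exact h01 h.1
    · have e2 := cross (W a0 a2) ha0 ha2
      rcases hdis a0 a1 a0 a2 h01 h20.symm _ e1 e2 with h | h
      · exact h21 h.2.symm
      · exact h20 h.1.symm
  choose h hh using hall
  have hinj : Function.Injective h := by
    intro a b hab
    apply f.injective
    rw [hh a, hh b, hab]
  -- every edge at a corner is used by one of its own paths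
  have hstep : ∀ a b, a ≠ b → ∃ x : Fin 4 × Fin 3, (h a).1 ≠ x.1 ∧
      s(f a, (i, some x)) ∈ (W b a).edges := by
    intro a b hab
    obtain ⟨x, hx⟩ := exists_edge_of_mem_support (W b a) (W b a).end_mem_support
      (fun h => hab (f.injective h))
    have hxs : x ∈ (W b a).support := (W b a).snd_mem_support_of_mem_edges hx
    obtain ⟨x', rfl⟩ := stay (W b a) (hpath b a hab.symm) ⟨_, hh b⟩ ⟨_, hh a⟩ x hxs
    have hadj : Gr.Adj (f a) (i, some x') := (W b a).adj_of_mem_edges hx
    rw [hh a, adj_some] at hadj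
    exact ⟨x', hadj.2, hx⟩
  choose n hn1 hn2 using hstep
  have hsurj : ∀ a (x : Fin 4 × Fin 3), (h a).1 ≠ x.1 → ∃ b, ∃ hab : a ≠ b, n a b hab = x := by
    intro a x hx
    let g : {b // a ≠ b} → {x : Fin 4 × Fin 3 // (h a).1 ≠ x.1} := fun b =>
      ⟨n a b.1 b.2, hn1 a b.1 b.2⟩
    have hg : Function.Injective g := by
      intro b b' hbb
      have e1 := hn2 a b.1 b.2
      have e2 := hn2 a b'.1 b'.2
      have hbb' : n a b.1 b.2 = n a b'.1 b'.2 := congrArg Subtype.val hbb
      rw [hbb'] at e1
      rcases hdis _ _ _ _ b.2.symm b'.2.symm _ e1 e2 with h | h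
      · exact Subtype.ext h.1
      · exact absurd h.1.symm b.2
    have hcard : Fintype.card {b // a ≠ b} = Fintype.card {x : Fin 4 × Fin 3 // (h a).1 ≠ x.1} := by
      rw [Fintype.card_subtype, Fintype.card_subtype, card_nbr]
      have : Finset.univ.filter (fun b => a ≠ b) = Finset.univ.erase a := by
        ext b
        simp [eq_comm]
      rw [this, Finset.card_erase_of_mem (Finset.mem_univ _)]
      simp
    have hbij := (Fintype.bijective_iff_injective_and_card g).2 ⟨hg, hcard⟩
    obtain ⟨b, hb⟩ := hbij.2 ⟨x, hx⟩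
    exact ⟨b.1, b.2, congrArg Subtype.val hb⟩
  -- corners are not interior vertices of paths
  have hcorner : ∀ a b c, b ≠ c → a ≠ b → a ≠ c → f a ∉ (W b c).support := by
    intro a b c hbc hab hac hmem
    obtain ⟨x, hx⟩ := exists_edge_of_mem_support (W b c) hmem (fun h => hab (f.injective h))
    have hxs : x ∈ (W b c).support := (W b c).snd_mem_support_of_mem_edges hx
    obtain ⟨x', rfl⟩ := stay (W b c) (hpath b c hbc) ⟨_, hh b⟩ ⟨_, hh c⟩ x hxs
    have hadj : Gr.Adj (f a) (i, some x') := (W b c).adj_of_mem_edges hx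
    rw [hh a, adj_some] at hadj
    obtain ⟨d, had, hd⟩ := hsurj a x' hadj.2
    have e1 := hn2 a d had
    rw [hd] at e1
    rcases hdis _ _ _ _ hbc had.symm _ hx e1 with h | h
    · exact hac h.2.symm
    · exact hab h.1.symm
  -- the two other vertices
  have hNC : ((Finset.univ.image h)ᶜ).card = 2 := by
    rw [Finset.card_compl, Finset.card_image_of_injective _ hinj]
    simp
  obtain ⟨p, q, hpq, hNCe⟩ := Finset.card_eq_two.1 hNC
  have hsupp : ∀ b c, b ≠ c → ∀ w ∈ (W b c).support,
      w = f b ∨ w = f c ∨ w = (i, some p) ∨ w = (i, some q) := by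
    intro b c hbc w hw
    obtain ⟨x, rfl⟩ := stay (W b c) (hpath b c hbc) ⟨_, hh b⟩ ⟨_, hh c⟩ w hw
    by_cases hx : x ∈ Finset.univ.image h
    · obtain ⟨a, -, rfl⟩ := Finset.mem_image.1 hx
      rw [← hh a] at hw ⊢
      by_cases hab : a = b
      · exact Or.inl (by rw [hab])
      by_cases hac : a = c
      · exact Or.inr (Or.inl (by rw [hac]))
      exact absurd hw (hcorner a b c hbc hab hac)
    · have hx' : x ∈ (Finset.univ.image h)ᶜ := Finset.mem_compl.2 hx
      rw [hNCe, Finset.mem_insert, Finset.mem_singleton] at hx'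
      rcases hx' with rfl | rfl
      · exact Or.inr (Or.inr (Or.inl rfl))
      · exact Or.inr (Or.inr (Or.inr rfl))
  have hfull : ∀ t, p.1 ≠ t → q.1 ≠ t → ∃ a b, a ≠ b ∧ (h a).1 = t ∧
      (h b).1 = t ∧ s(((i, some p) : V), ((i, some q) : V)) ∈ (W a b).edges := by
    intro t hpt hqt
    have hex : ∀ r : Fin 3, ∃ a, h a = (t, r) := by
      intro r
      have : (t, r) ∈ Finset.univ.image h := by
        by_contra hcon
        have hx' : (t, r) ∈ (Finset.univ.image h)ᶜ := Finset.mem_compl.2 hcon
        rw [hNCe, Finset.mem_insert, Finset.mem_singleton] at hx'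
        rcases hx' with hx' | hx'
        · exact hpt (by rw [← hx'])
        · exact hqt (by rw [← hx'])
      obtain ⟨a, -, ha⟩ := Finset.mem_image.1 this
      exact ⟨a, ha⟩
    choose A hA using hex
    have hAne : ∀ r r', r ≠ r' → A r ≠ A r' := by
      intro r r' hrr h
      have h1 := hA r
      rw [h, hA r'] at h1
      exact hrr (congrArg Prod.snd h1).symm
    by_contra hcon
    push Not at hcon
    have key : ∀ r r', r ≠ r' → ∃ y : V, (y = (i, some p) ∨ y = (i, some q)) ∧
        s(f (A r), y) ∈ (W (A r) (A r')).edges ∧ s(f (A r'), y) ∈ (W (A r) (A r')).edges := by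
      intro r r' hrr
      rcases short_path (W (A r) (A r')) (hpath _ _ (hAne r r' hrr))
        (fun h => hAne r r' hrr (f.injective h)) (by
          rw [hh, hh, adj_some, hA, hA]
          exact fun h => h.2 rfl) (hsupp _ _ (hAne r r' hrr)) with h | h
      · exact absurd h (hcon _ _ (hAne r r' hrr) (by rw [hA]) (by rw [hA]))
      · exact h
    have n01 : (0 : Fin 3) ≠ 1 := by decide
    have n02 : (0 : Fin 3) ≠ 2 := by decide
    have n12 : (1 : Fin 3) ≠ 2 := by decide
    obtain ⟨y1, hy1, e1, e1'⟩ := key 0 1 n01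
    obtain ⟨y2, hy2, e2, e2'⟩ := key 0 2 n02
    obtain ⟨y3, hy3, e3, e3'⟩ := key 1 2 n12
    have d12 : y1 ≠ y2 := by
      intro h
      rw [h] at e1
      rcases hdis _ _ _ _ (hAne _ _ n01) (hAne _ _ n02) _ e1 e2 with h | h
      · exact hAne _ _ n12 h.2
      · exact hAne _ _ n02 h.1
    have d13 : y1 ≠ y3 := by
      intro h
      rw [h] at e1'
      rcases hdis _ _ _ _ (hAne _ _ n01) (hAne _ _ n12) _ e1' e3 with h | h
      · exact hAne _ _ n01 h.1
      · exact hAne _ _ n02 h.1
    have d23 : y2 ≠ y3 := by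
      intro h
      rw [h] at e2'
      rcases hdis _ _ _ _ (hAne _ _ n02) (hAne _ _ n12) _ e2' e3' with h | h
      · exact hAne _ _ n01 h.1
      · exact hAne _ _ n02 h.1
    rcases hy1 with rfl | rfl <;> rcases hy2 with rfl | rfl <;> rcases hy3 with rfl | rfl <;>
      first
      | exact d12 rfl
      | exact d13 rfl
      | exact d23 rfl
  obtain ⟨t, t', htt, h1, h2, h3, h4⟩ := two_classes p.1 q.1
  obtain ⟨a, b, hab, ha, hb, e1⟩ := hfull t h1 h2
  obtain ⟨c, d, hcd, hc, hd, e2⟩ := hfull t' h3 h4
  rcases hdis a b c d hab hcd _ e1 e2 with h | h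
  · exact htt (by rw [← ha, ← hc, h.1])
  · exact htt (by rw [← ha, ← hd, h.1])

/-- There is a graph with minimum degree `9` and chromatic number `9` that contains no immersion of
`K_10`. -/
theorem result : ∃ (V : Type) (_ : Fintype V) (G : SimpleGraph V) (_ : DecidableRel G.Adj),
    G.minDegree = 9 ∧ G.chromaticNumber = 9 ∧ ¬ HasImmersion G 10 :=
  ⟨V, inferInstance, Gr, inferInstance, minDegree_eq, chromaticNumber_eq, no_immersion⟩

end Pool.Agent.Results.MP_5ee7f3_co.BridgedClique
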